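import Pool.Agent.H863.K4.Closed

/-!
# The largest complete class of matroids avoiding `M(K₄)`

The class of all finite matroids without a minor isomorphic to `M(K₄)` is complete, hence it is
the largest complete class that does not contain `M(K₄)`.

Idea of the proof. By duality and the rank formula, induction by a digraph is a composition of
dualities, restrictions and principal extensions (placing an element freely on a flat). The point
is that a principal extension creates no new `M(K₄)`-minor: if contracting the new element, which
is free on `F`, gives `M(K₄)` on six elements, then (when `F` has rank at least two) exactly two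
of the four three-point lines have rank three before the contraction, they meet in an element `f`
with `F ∪ f` of rank two, and contracting `f` and replacing it by an element of `F` that is not in
the closure of `f` gives an `M(K₄)` again.
-/

namespace Pool.Agent.Results.MP_c5be19_co.LargestComplete

open Pool.Agent.H863.K4 Pool.Agent.Helper666.FinGen

/-- `C` is the largest complete class of matroids that contains no copy of `M(K₄)`. -/
def IsLargestAvoidingMK4 (C : MatClass) : Prop :=
  IsComplete C ∧ (∀ (α : Type) (M : Matroid α), C α M → ¬ IsMK4 M) ∧
    ∀ D : MatClass, IsComplete D → (∀ (α : Type) (M : Matroid α), D α M → ¬ IsMK4 M) →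
      ∀ (α : Type) (M : Matroid α), D α M → C α M

/-- Sanity check: a copy of `M(K₄)` exists. -/
theorem exists_isMK4 : ∃ M : Matroid (Fin 6), M.Finite ∧ IsMK4 M := by
  let I : IndepMatroid (Fin 6) := IndepMatroid.ofFinset Set.univ
    (fun S => kap S = S.card) (by decide)
    (by
      have : ∀ S T : Finset (Fin 6), kap T = T.card → S ⊆ T → kap S = S.card := by
        set_option maxRecDepth 100000 in decide
      exact fun S T => this S T)
    (by
      have : ∀ S T : Finset (Fin 6), kap S = S.card → kap T = T.card → S.card < T.card →
          ∃ e ∈ T, e ∉ S ∧ kap (insert e S) = (insert e S).card := by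
        set_option maxRecDepth 100000 in decide
      exact fun S T => this S T)
    (fun _ _ => Set.subset_univ _)
  have hfin : I.matroid.Finite := ⟨Set.toFinite _⟩
  refine ⟨I.matroid, hfin, ?_⟩
  rw [isMK4_iff]
  refine ⟨id, Function.injective_id, by rw [Set.range_id]; rfl, fun S => ?_⟩
  refine rk_eq_kap _ Function.injective_id (fun S => ?_) S
  rw [Set.image_id]
  simp [I, IndepMatroid.ofFinset_indep]

/-- The largest complete class of matroids that does not contain `M(K₄)` is the class of all finite
matroids with no minor isomorphic to `M(K₄)`. -/
theorem result : IsLargestAvoidingMK4 NoMK4Minor :=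
  ⟨noMK4Minor_isComplete, fun _ _ h => h.2 _ Matroid.IsMinor.refl, noMK4Minor_largest⟩

end Pool.Agent.Results.MP_c5be19_co.LargestComplete
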